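import Pool.Agent.H3.B17.Min
import Pool.Agent.H3.B17.Tors
import Pool.Graph.R_pool_sql_team_seeded_63374d34.N969.Den.Root17
import Pool.Graph.R_seed8.Y948.CQ.C2

/-!
# The 2-part of the strong Birch and Swinnerton-Dyer conjecture for one fifth of all quadratic
# twists of a curve of conductor `17`

`E : y² = x³ - 91 x - 330 = (x + 5) (x + 6) (x - 11)`, with the minimal equation
`y² + x y + y = x³ - x² - 6 x - 4`, is an elliptic curve of conductor `17` without complex
multiplication. All quadratic twists `E_d : y² = x³ - 91 d² x - 330 d³` are considered, `d ≠ 1` any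
squarefree integer, positive or negative, even or odd, without any condition on its prime factors.
Let `Λ` be the entire continuation of the L-series of `E_d` and let
`z = #E_d(ℚ)_tors² Λ(1) / (Ω ∏ c_p)`,
which is zero or the order of `Ш(E_d/ℚ)` according to the conjecture. For all these `d`:
* the equation `twist d` of `E_d` is global minimal, the order of the torsion subgroup is four times
  an odd number, and `∏ c_p = 2 ^ (1 + 2 k)` or, if `17 ∣ d`, `2 ^ (2 k)`, where `k` is the number of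
  the prime factors of the discriminant of `ℚ(√d)`;
* if the root number is `- 1` (not `RootPlus d`) then `Λ(1) = 0`; if it is `+ 1` then `z` is the
  square of an integer, and `z` is odd if and only if `d` is good;
* `d` is good if an explicit symmetric matrix `[[N, R], [Rᵀ, A]]` over `F₂`, the analogue of the matrix
  of Monsky, is invertible: `R` is the matrix of the Kronecker symbols of the prime discriminants,
  `N` and `A` are diagonal with the symbols `(17 / p)` and the signs of the prime discriminants;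
* the 2-part of the full conjecture in the case that `z` is odd (`TwoPart d`: `Λ(1) ≠ 0`, `E_d(ℚ)` is
  finite, the 2-primary part of `Ш(E_d/ℚ)` is zero and `z` is an odd integer) is true if and only if
  the root number is `+ 1` and `d` is good;
* the proportion of these `d` is exactly `c / 2` among all squarefree integers, and `c` among those
  with root number `+ 1`, `c = ∏_{i ≥ 0} (1 - 2^{-(2 i + 1)}) = 0.4194...`, also if the twists are
  ordered by the discriminants of `ℚ(√d)`.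

The Lean proof is complete: modular symbols and ternary theta series of level `17`, a formula of Gross
type for the central values and its `2`-adic valuation, the real period, the Tamagawa numbers, the
torsion, global minimality, two-descent, and the distribution of the matrices of Monsky type. The
modular side and the distribution were left unassembled by an earlier run
(`Pool.Graph.R_pool_sql_team_seeded_63374d34`); the two-descent (`Pool.Agent.H3.L17`), the Tamagawa
numbers, the torsion, the minimality (`Pool.Agent.H3.B17`) and the assembly are new.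
-/

set_option autoImplicit false

namespace Pool.Agent.Results.MP_4a9ea6_nt.TwoPartAllTwists17

open Filter Finset MeasureTheory
open scoped Classical

open Pool.Agent.TH841.SH.D (Sha)

/-- The quadratic twist by `d` of `y² + x y + y = x³ - x² - 6 x - 4`. The second equation is
`y² = (x + 5 d) (x + 6 d) (x - 11 d)`; the first one is obtained from it by
`(x, y) ↦ (4 x - d, 8 y + 4 x + 4)`. -/
def twist (d : ℤ) : WeierstrassCurve ℤ :=
  if d % 4 = 1 then ⟨1, -((3 * d + 1) / 4), 1, -((11 * d ^ 2 + 1) / 2), -((15 * d ^ 3 + 1) / 4)⟩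
  else ⟨0, 0, 0, -91 * d ^ 2, -330 * d ^ 3⟩

/-- The curve over `ℚ`. -/
abbrev E (d : ℤ) : WeierstrassCurve ℚ := (twist d).map (Int.castRingHom ℚ)

/-- `W` is a global minimal equation: `Δ ≠ 0` and `|Δ|` is minimal among the integral Weierstrass
equations of the same curve over `ℚ`. -/
def IsGloballyMinimal (W : WeierstrassCurve ℤ) : Prop :=
  W.Δ ≠ 0 ∧ ∀ (W' : WeierstrassCurve ℤ) (C : WeierstrassCurve.VariableChange ℚ),
    C • (W.map (Int.castRingHom ℚ)) = W'.map (Int.castRingHom ℚ) → |W.Δ| ≤ |W'.Δ|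

/-- The number of the affine points modulo `p`. -/
noncomputable def affCount (W : WeierstrassCurve ℤ) (p : ℕ) : ℕ :=
  Nat.card {P : ZMod p × ZMod p //
    (W.map (Int.castRingHom (ZMod p))).toAffine.Equation P.1 P.2}

/-- `a_p = p + 1 - #E(𝔽_p)`. -/
noncomputable def ap (W : WeierstrassCurve ℤ) (p : ℕ) : ℤ := p - affCount W p

/-- `Λ` is entire and equal to `∏_p (1 - a_p p^(-s) + [p ∤ Δ] p^(1-2s))⁻¹` for `Re s > 3/2`. -/
def IsLFun (W : WeierstrassCurve ℤ) (Λ : ℂ → ℂ) : Prop :=
  Differentiable ℂ Λ ∧ ∀ s : ℂ, 3 / 2 < s.re →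
    HasProd (fun p : Nat.Primes => (1 - (ap W p : ℂ) * ((p : ℕ) : ℂ) ^ (-s) +
      (if ((p : ℕ) : ℤ) ∣ W.Δ then 0 else ((p : ℕ) : ℂ) ^ (1 - 2 * s)))⁻¹) (Λ s)

/-- `4 x³ + b₂ x² + 2 b₄ x + b₆ = (2 y + a₁ x + a₃)²`. -/
noncomputable def cubic (W : WeierstrassCurve ℤ) (x : ℝ) : ℝ :=
  4 * x ^ 3 + W.b₂ * x ^ 2 + 2 * W.b₄ * x + W.b₆

/-- `Ω = ∫_{W(ℝ)} |ω|` with `ω = dx / (2 y + a₁ x + a₃)`, as an integral over `x`: two real points lie
over each `x` with `cubic x > 0`. -/
noncomputable def Omega (W : WeierstrassCurve ℤ) : ℝ :=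
  ∫ x in {x : ℝ | 0 < cubic W x}, 2 / Real.sqrt (cubic W x)

/-- The point `(x, y)` over `ℚ_p` is integral and reduces to a singular point modulo `p`: both partial
derivatives of `y² + a₁ x y + a₃ y - x³ - a₂ x² - a₄ x - a₆` vanish modulo `p`. -/
def SingRed (W : WeierstrassCurve ℤ) (p : ℕ) [Fact p.Prime] (x y : ℚ_[p]) : Prop :=
  ‖x‖ ≤ 1 ∧ ‖y‖ ≤ 1 ∧ ‖W.a₁ * y - (3 * x ^ 2 + 2 * W.a₂ * x + W.a₄)‖ < 1 ∧
    ‖2 * y + W.a₁ * x + W.a₃‖ < 1

/-- `W⁰(ℚ_p)`, the group of the points with nonsingular reduction. -/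
noncomputable def E0 (W : WeierstrassCurve ℤ) (p : ℕ) [Fact p.Prime] :
    AddSubgroup (W.map (Int.castRingHom ℚ_[p])).toAffine.Point :=
  AddSubgroup.closure {P | ∀ (x y : ℚ_[p]) (h), P = .some x y h → ¬ SingRed W p x y}

/-- The Tamagawa number `[W(ℚ_p) : W⁰(ℚ_p)]`. -/
noncomputable def tam (W : WeierstrassCurve ℤ) (p : ℕ) : ℕ :=
  if h : p.Prime then haveI := Fact.mk h; (E0 W p).index else 1

/-- The product of the Tamagawa numbers. -/
noncomputable def tamProd (W : WeierstrassCurve ℤ) : ℕ := ∏ p ∈ W.Δ.natAbs.primeFactors, tam W p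

/-- The order of the torsion subgroup of the group of the rational points. -/
noncomputable def torsOrder (W : WeierstrassCurve ℚ) : ℕ :=
  Nat.card (AddCommGroup.torsion W.toAffine.Point)

/-- The order of the Tate-Shafarevich group predicted by the formula, for the value `l` of the
L-function of `E_d` at `s = 1`: `#E_d(ℚ)_tors² l / (Ω ∏ c_p)`. -/
noncomputable def anOrder (d : ℤ) (l : ℂ) : ℂ :=
  l * (torsOrder (E d) : ℂ) ^ 2 / ((Omega (twist d) : ℝ) * (tamProd (twist d) : ℂ))

/-- The condition for the root number `+ 1`. -/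
def RootPlus (d : ℤ) : Prop := (0 < d ∧ jacobiSym d 17 = 1) ∨ (d < 0 ∧ jacobiSym d 17 ≠ 1)

/-- The discriminant of `ℚ(√d)`. -/
def disc (d : ℤ) : ℤ := if d % 4 = 1 then d else 4 * d

/-- The prime discriminants: `D` is the product of the `st D p` over the primes `p ∣ D`. -/
def st (D : ℤ) (p : ℕ) : ℤ :=
  if p = 2 then (if D % 16 = 12 then -4 else if D % 32 = 8 then 8 else -8)
  else if p % 4 = 1 then p else -p

/-- The Kronecker symbol `(st D q / p)` for `p ≠ q`, written additively. -/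
def lg (D : ℤ) (q p : ℕ) : ZMod 2 :=
  if p = 2 then (if st D q % 8 = 1 ∨ st D q % 8 = 7 then 0 else 1)
  else (if jacobiSym (st D q) p = 1 then 0 else 1)

/-- The matrix `R` of the Kronecker symbols, with row sums zero. -/
def R (D : ℤ) (p q : ℕ) : ZMod 2 :=
  if p = q then ∑ r ∈ D.natAbs.primeFactors.erase p, lg D r p else lg D q p

/-- The sign of the prime discriminant, written additively. -/
def sn (D : ℤ) (q : ℕ) : ZMod 2 := if st D q < 0 then 1 else 0

/-- The Kronecker symbol `(17 / p)`, written additively. -/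
def nu (p : ℕ) : ZMod 2 := if p = 2 then 0 else if jacobiSym 17 p = 1 then 0 else 1

/-- The criterion for the discriminant `D`: the symmetric matrix `[[N, R], [Rᵀ, A]]` over `F₂`,
without the row and the column of the first block which belong to `17`, has trivial kernel. -/
def Cri (D : ℤ) : Prop := ∀ x y : ℕ → ZMod 2, ((17 : ℤ) ∣ D → x 17 = 0) →
  (∀ p ∈ D.natAbs.primeFactors, p ≠ 17 →
    nu p * x p + ∑ q ∈ D.natAbs.primeFactors, R D p q * y q = 0) →
  (∀ q ∈ D.natAbs.primeFactors,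
    ∑ p ∈ D.natAbs.primeFactors, R D p q * x p + sn D q * y q = 0) →
  ∀ p ∈ D.natAbs.primeFactors, x p = 0 ∧ y p = 0

/-- The criterion for the squarefree integer `d`. -/
def Good (d : ℤ) : Prop := Cri (disc d)

/-- The 2-part of the conjecture, in the case that `z` is odd: `E_d(ℚ)` is finite, the 2-primary part
of `Ш(E_d/ℚ)` is zero, `L(E_d, s)` has an entire continuation `Λ` with `Λ(1) ≠ 0`, and the predicted
order of `Ш(E_d/ℚ)` is an odd integer. -/
def TwoPart (d : ℤ) : Prop :=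
  Finite (E d).toAffine.Point ∧ (∀ (n : ℕ) (x : Sha (E d)), 2 ^ n • x = 0 → x = 0) ∧
    ∃ Λ : ℂ → ℂ, IsLFun (twist d) Λ ∧ Λ 1 ≠ 0 ∧ ∃ z : ℤ, Odd z ∧ anOrder d (Λ 1) = z

/-- The number of the squarefree integers `d`, `|d| ≤ X`, with the property `P`. -/
noncomputable def num (P : ℤ → Prop) (X : ℕ) : ℕ :=
  ((Icc (-(X : ℤ)) X).filter fun d => Squarefree d ∧ P d).card

/-- The number of the squarefree integers `d`, `|disc d| ≤ X`, with the property `P`. -/
noncomputable def numD (P : ℤ → Prop) (X : ℕ) : ℕ :=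
  ((Icc (-(X : ℤ)) X).filter fun d => |disc d| ≤ X ∧ Squarefree d ∧ P d).card

/-- The constant `(1 - 1/2) (1 - 1/8) (1 - 1/32) ⋯`. -/
noncomputable def c : ℝ := ∏' i : ℕ, (1 - (1 / 2 : ℝ) ^ (2 * i + 1))

section proof

open Pool.Agent.H3.B17 (min_twist torsion_twist tam_ram tam_mult bad_primes dvd_disc central
  algebraic TT om)

lemma twist_eq (d : ℤ) : twist d = Pool.Agent.H3.B17.twist d := rfl

lemma tam_eq (W : WeierstrassCurve ℤ) (p : ℕ) [hp : Fact p.Prime] :
    tam W p = Pool.Agent.Y700.tam W p := by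
  unfold tam
  rw [dif_pos hp.out]
  rfl

lemma tamProd_eq {d : ℤ} (hd : Squarefree d) : tamProd (twist d) =
    (if (17 : ℤ) ∣ d then 1 else 2) * 4 ^ (disc d).natAbs.primeFactors.card := by
  have hram : ∀ p ∈ (disc d).natAbs.primeFactors, tam (twist d) p = 4 := by
    intro p hp
    have : Fact p.Prime := ⟨Nat.prime_of_mem_primeFactors hp⟩
    rw [tam_eq]
    exact tam_ram Pool.Agent.Y809.BSD14.t_E0 hd (Nat.dvd_of_mem_primeFactors hp)
  have hbad : (twist d).Δ.natAbs.primeFactors = insert 17 (disc d).natAbs.primeFactors :=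
    bad_primes hd
  have hD0 : (disc d).natAbs ≠ 0 := by
    have := hd.ne_zero
    unfold disc
    split_ifs <;> omega
  unfold tamProd
  rw [hbad]
  by_cases h : (17 : ℤ) ∣ d
  · have h17 : 17 ∈ (disc d).natAbs.primeFactors :=
      Nat.mem_primeFactors.2 ⟨by norm_num, dvd_disc.2 h, hD0⟩
    rw [Finset.insert_eq_of_mem h17, if_pos h, Finset.prod_congr rfl hram, Finset.prod_const, one_mul]
  · have h17 : 17 ∉ (disc d).natAbs.primeFactors := fun h' =>
      h (dvd_disc.1 (Nat.dvd_of_mem_primeFactors h'))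
    rw [Finset.prod_insert h17, if_neg h, Finset.prod_congr rfl hram, Finset.prod_const]
    have : Fact (Nat.Prime 17) := ⟨by norm_num⟩
    rw [tam_eq, twist_eq, tam_mult Pool.Agent.Y809.BSD14.t_E0 hd h]

lemma two_pow {G : Type} [AddCommGroup G] (h : ∀ x : G, x + x = 0 → x = 0) (n : ℕ) :
    ∀ x : G, 2 ^ n • x = 0 → x = 0 := by
  induction n with
  | zero => intro x hx; rwa [pow_zero, one_smul] at hx
  | succ n ih =>
    intro x hx
    rw [pow_succ, mul_smul, two_smul] at hx
    exact h x (ih _ hx)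

theorem core {d : ℤ} (hd : Squarefree d) (h1 : d ≠ 1) :
    IsGloballyMinimal (twist d) ∧
    (∃ t : ℕ, Odd t ∧ torsOrder (E d) = 4 * t) ∧
    tamProd (twist d) = (if (17 : ℤ) ∣ d then 1 else 2) * 4 ^ (disc d).natAbs.primeFactors.card ∧
    0 < Omega (twist d) ∧
    (∃ Λ : ℂ → ℂ, IsLFun (twist d) Λ ∧ (¬ RootPlus d → Λ 1 = 0) ∧
      (RootPlus d → ∃ z : ℤ, anOrder d (Λ 1) = z ^ 2 ∧ (Odd z ↔ Good d))) ∧
    (TwoPart d ↔ RootPlus d ∧ Good d) := by
  obtain ⟨t, ht, htors⟩ := torsion_twist hd h1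
  have htors' : torsOrder (E d) = 4 * t := htors
  have hT := tamProd_eq hd
  obtain ⟨hΩ, Λ, hΛ, hv1, hv2⟩ := central hd h1
  have hΩ' : 0 < Omega (twist d) := hΩ
  have hL : IsLFun (twist d) Λ := hΛ
  have hTT : tamProd (twist d) = TT d := hT
  have hTpos : (TT d : ℂ) ≠ 0 := by
    have : TT d ≠ 0 := by
      rw [← hTT, hT]
      split_ifs <;> positivity
    exact_mod_cast this
  have hΩc : ((Omega (twist d) : ℝ) : ℂ) ≠ 0 := by exact_mod_cast hΩ'.ne'
  have hval : RootPlus d → ∃ z : ℤ, anOrder d (Λ 1) = z ^ 2 ∧ (Odd z ↔ Good d) := by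
    intro hR
    obtain ⟨y, hy, hv⟩ := hv1 hR
    refine ⟨t * y, ?_, ?_⟩
    · have hv' : 16 * Λ 1 = (TT d : ℂ) * (y : ℂ) ^ 2 * ((Omega (twist d) : ℝ) : ℂ) := hv
      unfold anOrder
      rw [htors', hTT, div_eq_iff (mul_ne_zero hΩc hTpos)]
      push_cast
      linear_combination (t : ℂ) ^ 2 * hv'
    · rw [Int.odd_mul]
      exact ⟨fun h => hy.1 h.2, fun h => ⟨by exact_mod_cast ht, hy.2 h⟩⟩
  have huniq : ∀ Λ', IsLFun (twist d) Λ' → Λ' = Λ := fun Λ' h' =>
    Pool.Agent.Y700.IsL.unique (W := twist d) h' hΛ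
  refine ⟨min_twist hd, ⟨t, ht, htors'⟩, hT, hΩ', ⟨Λ, hL, hv2, hval⟩, ?_, ?_⟩
  · rintro ⟨-, -, Λ', h', hne, z, hz, hzv⟩
    rw [huniq Λ' h'] at hne hzv
    have hR : RootPlus d := by
      by_contra hR
      exact hne (hv2 hR)
    refine ⟨hR, ?_⟩
    obtain ⟨w, hw1, hw2⟩ := hval hR
    rw [hw1] at hzv
    have h2 : w ^ 2 = z := by exact_mod_cast hzv
    rw [← hw2]
    rw [← h2] at hz
    exact (Int.odd_pow' two_ne_zero).1 hz
  · rintro ⟨hR, hG⟩
    obtain ⟨hf, hs⟩ := algebraic hd hG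
    obtain ⟨w, hw1, hw2⟩ := hval hR
    have hwo := hw2.2 hG
    refine ⟨hf, two_pow hs, Λ, hL, ?_, w ^ 2, hwo.pow, by rw [hw1]; push_cast; ring⟩
    intro h0
    rw [h0] at hw1
    unfold anOrder at hw1
    rw [zero_mul, zero_div] at hw1
    have h3 : w ^ 2 = 0 := by exact_mod_cast hw1.symm
    have h4 : w = 0 := pow_eq_zero_iff two_ne_zero |>.1 h3
    rw [h4] at hwo
    exact absurd hwo (by decide)

theorem num_eq (P : ℤ → Prop) : num P = Pool.Agent.N919.BS.NS P := rfl

theorem core_disc (d : ℤ) (hd : Squarefree d) : Pool.Agent.N919.BS.core (disc d) = d := by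
  have h4 := Pool.Agent.H3.L17.mod_two hd
  unfold Pool.Agent.N919.BS.core disc
  split_ifs <;> omega

theorem numD_eq (P : ℤ → Prop) : numD P = Pool.Agent.N919.BS.NF P := by
  funext X
  unfold numD Pool.Agent.N919.BS.NF
  refine card_bij (fun d _ => disc d) ?_ ?_ ?_
  · intro d hd
    rw [mem_filter, mem_Icc] at hd ⊢
    obtain ⟨-, h1, h2, h3⟩ := hd
    rw [abs_le] at h1
    refine ⟨h1, ?_, by rw [core_disc d h2]; exact h3⟩
    have h4 := Pool.Agent.H3.L17.mod_two h2
    unfold Pool.Agent.N919.BS.Fund disc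
    by_cases c1 : d % 4 = 1
    · left
      rw [if_pos c1]
      exact ⟨h2, c1⟩
    · right
      rw [if_neg c1]
      exact ⟨d, rfl, h2, by omega⟩
  · intro d hd e he h
    rw [mem_filter] at hd he
    have := congrArg Pool.Agent.N919.BS.core h
    rwa [core_disc d hd.2.2.1, core_disc e he.2.2.1] at this
  · intro D hD
    rw [mem_filter, mem_Icc] at hD
    obtain ⟨h1, h2, h3⟩ := hD
    rcases h2 with ⟨h2, h4⟩ | ⟨m, h4, h2, h5⟩
    · have e : disc D = D := by
        unfold disc
        rw [if_pos h4]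
      refine ⟨D, ?_, e⟩
      rw [mem_filter, mem_Icc, e, abs_le]
      refine ⟨h1, h1, h2, ?_⟩
      rw [← core_disc D h2, e]
      exact h3
    · have e : disc m = D := by
        unfold disc
        rw [if_neg (by omega), h4]
      refine ⟨m, ?_, e⟩
      rw [mem_filter, mem_Icc, e, abs_le]
      refine ⟨by omega, h1, h2, ?_⟩
      rw [← core_disc m h2, e]
      exact h3

theorem num_congr {P Q : ℤ → Prop} (h : ∀ d, Squarefree d → (P d ↔ Q d)) : num P = num Q := by
  funext X
  unfold num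
  refine congrArg card (filter_congr fun d _ => ?_)
  constructor
  · rintro ⟨h1, h2⟩
    exact ⟨h1, (h d h1).1 h2⟩
  · rintro ⟨h1, h2⟩
    exact ⟨h1, (h d h1).2 h2⟩

theorem numD_congr {P Q : ℤ → Prop} (h : ∀ d, Squarefree d → (P d ↔ Q d)) : numD P = numD Q := by
  funext X
  unfold numD
  refine congrArg card (filter_congr fun d _ => ?_)
  constructor
  · rintro ⟨h0, h1, h2⟩
    exact ⟨h0, h1, (h d h1).1 h2⟩
  · rintro ⟨h0, h1, h2⟩
    exact ⟨h0, h1, (h d h1).2 h2⟩

/-- two sequences which differ by at most one -/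
lemma lim_of {A B C : ℕ → ℕ} {l : ℝ} (h1 : ∀ X, A X ≤ B X + 1) (h2 : ∀ X, B X ≤ A X + 1)
    (hB : Tendsto (fun X => (B X : ℝ) / C X) atTop (nhds l))
    (hC : Tendsto (fun X => (C X : ℝ)) atTop atTop) :
    Tendsto (fun X => (A X : ℝ) / C X) atTop (nhds l) := by
  have h3 : Tendsto (fun X => (1 : ℝ) / (C X : ℝ)) atTop (nhds 0) := hC.const_div_atTop _
  have h4 : Tendsto (fun X => ((A X : ℝ) - B X) / C X) atTop (nhds 0) := by
    refine squeeze_zero_norm (fun X => ?_) h3
    rw [norm_div, Real.norm_of_nonneg (Nat.cast_nonneg (C X))]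
    refine div_le_div_of_nonneg_right ?_ (Nat.cast_nonneg _)
    rw [Real.norm_eq_abs, abs_le]
    have a := h1 X
    have b := h2 X
    have a' : (A X : ℝ) ≤ B X + 1 := by exact_mod_cast a
    have b' : (B X : ℝ) ≤ A X + 1 := by exact_mod_cast b
    constructor <;> linarith
  have h5 := hB.add h4
  rw [add_zero] at h5
  refine h5.congr fun X => ?_
  rw [← add_div]
  congr 1
  ring

lemma card_le {S : Finset ℤ} {p q : ℤ → Prop} [DecidablePred p] [DecidablePred q]
    (h : ∀ d ∈ S, d ≠ 1 → (p d → q d)) : (S.filter p).card ≤ (S.filter q).card + 1 := by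
  refine (Finset.card_le_card (t := insert 1 (S.filter q)) ?_).trans (Finset.card_insert_le _ _)
  intro d hd
  obtain ⟨h1, h2⟩ := Finset.mem_filter.1 hd
  by_cases h3 : d = 1
  · exact Finset.mem_insert.2 (Or.inl h3)
  · exact Finset.mem_insert_of_mem (Finset.mem_filter.2 ⟨h1, h d h1 h3 h2⟩)

lemma num_le {P Q : ℤ → Prop} (h : ∀ d, Squarefree d → d ≠ 1 → P d → Q d) (X : ℕ) :
    num P X ≤ num Q X + 1 :=
  card_le fun d _ h1 h' => ⟨h'.1, h d h'.1 h1 h'.2⟩

lemma numD_le {P Q : ℤ → Prop} (h : ∀ d, Squarefree d → d ≠ 1 → P d → Q d) (X : ℕ) :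
    numD P X ≤ numD Q X + 1 :=
  card_le fun d _ h1 h' => ⟨h'.1, h'.2.1, h d h'.2.1 h1 h'.2.2⟩

end proof

/-- **The 2-part of the strong Birch and Swinnerton-Dyer conjecture for one fifth of all quadratic
twists.** -/
theorem result :
    (∀ d : ℤ, Squarefree d → d ≠ 1 →
      IsGloballyMinimal (twist d) ∧
      (∃ t : ℕ, Odd t ∧ torsOrder (E d) = 4 * t) ∧
      tamProd (twist d) = (if (17 : ℤ) ∣ d then 1 else 2) * 4 ^ (disc d).natAbs.primeFactors.card ∧
      0 < Omega (twist d) ∧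
      (∃ Λ : ℂ → ℂ, IsLFun (twist d) Λ ∧ (¬ RootPlus d → Λ 1 = 0) ∧
        (RootPlus d → ∃ z : ℤ, anOrder d (Λ 1) = z ^ 2 ∧ (Odd z ↔ Good d))) ∧
      (TwoPart d ↔ RootPlus d ∧ Good d)) ∧
    Tendsto (fun X : ℕ => (num TwoPart X : ℝ) / (num (fun _ => True) X : ℝ)) atTop (nhds (c / 2)) ∧
    Tendsto (fun X : ℕ => (num TwoPart X : ℝ) / (num RootPlus X : ℝ)) atTop (nhds c) ∧
    Tendsto (fun X : ℕ => (numD TwoPart X : ℝ) / (numD (fun _ => True) X : ℝ)) atTop (nhds (c / 2)) ∧
    Tendsto (fun X : ℕ => (numD TwoPart X : ℝ) / (numD RootPlus X : ℝ)) atTop (nhds c) ∧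
    0.4194 < c ∧ c < 0.4195 := by
  have key : ∀ d : ℤ, Squarefree d → ((Pool.Agent.N919.BS.Rt17 d ∧ Pool.Agent.N916.MO.G17 d) ↔
      (RootPlus d ∧ Good d)) := fun d hd =>
    ⟨fun h => ⟨h.1, (Pool.Agent.H3.L17.g17_cri hd h.1).1 h.2⟩,
      fun h => ⟨h.1, (Pool.Agent.H3.L17.g17_cri hd h.1).2 h.2⟩⟩
  have tS := Pool.Agent.N916.MO.dens17_sf
  have tD := Pool.Agent.N916.MO.dens17_fd
  have tR := Pool.Agent.N969.Den.dens17_root
  rw [← num_eq, ← num_eq, num_congr key] at tS
  rw [← numD_eq, ← numD_eq, numD_congr key] at tD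
  rw [← numD_eq, ← numD_eq, numD_congr key] at tR
  have half : Tendsto (fun X : ℕ => (num RootPlus X : ℝ) / (num (fun _ => True) X : ℝ)) atTop
      (nhds (1 / 2)) := by
    have h := Pool.Agent.N919.BS.t_NS Pool.Agent.N919.BS.root17 (G := fun _ => True) (c := 1) (by
      intro s k r _ _ _ ε hε
      refine ⟨0, fun Y _ => ?_⟩
      simp only [and_true, one_mul, sub_self, abs_zero]
      positivity)
    simp only [and_true] at h
    exact h
  have top : Tendsto (fun X : ℕ => (num (fun _ => True) X : ℝ)) atTop atTop :=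
    Pool.Agent.N969.Den.NS_top
  have tS2 := Pool.Agent.N969.Den.ratio2 tS half top
  have topD : Tendsto (fun X : ℕ => (numD (fun _ => True) X : ℝ)) atTop atTop := by
    rw [numD_eq]
    exact Pool.Agent.N969.Den.NF_top
  have halfD : Tendsto (fun X : ℕ => (numD RootPlus X : ℝ) / (numD (fun _ => True) X : ℝ)) atTop
      (nhds (1 / 2)) := by
    rw [numD_eq, numD_eq]
    exact Pool.Agent.N969.Den.half17
  have topR : Tendsto (fun X : ℕ => (num RootPlus X : ℝ)) atTop atTop := by
    refine (half.pos_mul_atTop (by norm_num) top).congr' ?_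
    filter_upwards [top.eventually_gt_atTop 0] with X hX
    rw [div_mul_cancel₀ _ hX.ne']
  have topDR : Tendsto (fun X : ℕ => (numD RootPlus X : ℝ)) atTop atTop := by
    refine (halfD.pos_mul_atTop (by norm_num) topD).congr' ?_
    filter_upwards [topD.eventually_gt_atTop 0] with X hX
    rw [div_mul_cancel₀ _ hX.ne']
  have cr : ∀ d : ℤ, Squarefree d → d ≠ 1 → (TwoPart d ↔ RootPlus d ∧ Good d) :=
    fun d hd h1 => (core hd h1).2.2.2.2.2
  have n1 := num_le (P := TwoPart) (Q := fun d => RootPlus d ∧ Good d) fun d hd h1 => (cr d hd h1).1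
  have n2 := num_le (P := fun d => RootPlus d ∧ Good d) (Q := TwoPart) fun d hd h1 => (cr d hd h1).2
  have n3 := numD_le (P := TwoPart) (Q := fun d => RootPlus d ∧ Good d) fun d hd h1 => (cr d hd h1).1
  have n4 := numD_le (P := fun d => RootPlus d ∧ Good d) (Q := TwoPart) fun d hd h1 => (cr d hd h1).2
  exact ⟨fun d hd h1 => core hd h1, lim_of n1 n2 tS top, lim_of n1 n2 tS2 topR,
    lim_of n3 n4 tD topD, lim_of n3 n4 tR topDR, Pool.Agent.Y948.CQ.t_C2.2.2.2.1,
    Pool.Agent.Y948.CQ.t_C2.2.2.2.2⟩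

end Pool.Agent.Results.MP_4a9ea6_nt.TwoPartAllTwists17
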