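import Pool.Agent.H3.S15.Val
import Pool.Agent.H3.S15.TamB
import Pool.Agent.H3.S15.Tors
import Pool.Graph.R_pool_sql_team_seeded_620a6dc7.H757_X15.DN.Fin
import Pool.Graph.R_pool_sql_team_seeded_620a6dc7.H757_X15.DN.Den2
import Pool.Graph.R_pool_sql_team_seeded_620a6dc7.H735X.Fin
import Pool.Graph.R_pool_sql_team_seeded_620a6dc7.H735X.Law

/-!
# The 2-part of the strong Birch and Swinnerton-Dyer conjecture for a positive proportion of the
# quadratic twists of `X_0(15)`

`E = X_0(15) : y² + x y + y = x³ + x² - 10 x - 10` is an elliptic curve of conductor `15` without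
complex multiplication. Let `D > 1` be squarefree and congruent to `1` or `49` modulo `60`; there is
no other restriction on the prime factors of `D`, so that these `D` have the positive density
`5 / (16 π²)` among all positive integers. Let `E_D` be the quadratic twist of `E` by `D`, let `Λ` be
the entire continuation of its L-series, and let
`z = #E_D(ℚ)_tors² Λ(1) / (Ω ∏ c_p)`,
which is zero or the order of `Ш(E_D/ℚ)` according to the conjecture. The theorem says, for all these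
`D`, with no hypothesis on the rank or on `Ш`:
* the equation `twist D` of `E_D` is global minimal, the order of the torsion subgroup is four times
  an odd number, and `∏ c_p = 2 ^ (3 + 2 k)`, `k` the number of the prime factors of `D`;
* up to sign, `z` is the square of an integer;
* `z` is odd iff `E_D(ℚ)` is finite and `Ш(E_D/ℚ)` has no element of order two iff `D` is good. Here
  `D` is good if the only positive divisor `d` of `D` with `(d / p) = 1` for the primes `p` dividing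
  `D` but not `d`, `(-(D / d) / p) = 1` for the primes `p` dividing `d`, and `(d / 5) = 1`, is `d = 1`;
* in this case `Λ(1) ≠ 0`, `E_D(ℚ)` is finite, the 2-primary part of `Ш(E_D/ℚ)` is zero and `z` is an
  odd integer: the 2-part of the full conjecture (`TwoPart D`);
* the proportion of the `D` for which this is the case is exactly
  `c = ∏_{i ≥ 1} (1 - 2^{-i}) = 0.2887...`; moreover for different squarefree numbers `M_1, ..., M_n`
  of the class these events for the twists by `M_i D` (without its square part) are independent.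

The proof is complete in Lean: modular symbols of `X_0(15)`, a formula of Gross type for the central
values, its `2`-adic valuation, the real period, the Tamagawa numbers, the torsion, a complete
two-descent in both directions, and the distribution of the matrices of Rédei type. The modules
`Pool.Graph.R_pool_sql_team_seeded_620a6dc7.H757_X15` and `H735X` are leftovers of an earlier run by
helper757, helper735 and many others; `Pool.Agent.H3.X15`, `Pool.Agent.H3.S15` and the assembly are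
new.
-/

set_option autoImplicit false

namespace Pool.Agent.Results.MP_4a9ea6_nt.TwoPartTwistsX015

open Filter Finset MeasureTheory
open scoped Classical

open Pool.Agent.TH841.SH.D (Sha)

/-- The quadratic twist by `D ≡ 1 mod 4` of `X_0(15) : y² + x y + y = x³ + x² - 10 x - 10`; with
`X = 4 (x - 3 D)` and `Y = 4 (2 y + x + 1)` it is `Y² = X (X + 16 D) (X + 25 D)`. -/
def twist (D : ℕ) : WeierstrassCurve ℤ :=
  ⟨1, (5 * D - 1) / 4, 1, -((19 * D ^ 2 + 1) / 2), -((39 * D ^ 3 + 1) / 4)⟩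

/-- The curve over `ℚ`. -/
abbrev E (D : ℕ) : WeierstrassCurve ℚ := (twist D).map (Int.castRingHom ℚ)

/-- `W` is a global minimal equation: `Δ ≠ 0` and `|Δ|` is minimal among the integral Weierstrass
equations of the same curve over `ℚ`. -/
def IsGloballyMinimal (W : WeierstrassCurve ℤ) : Prop :=
  W.Δ ≠ 0 ∧ ∀ (W' : WeierstrassCurve ℤ) (C : WeierstrassCurve.VariableChange ℚ),
    C • (W.map (Int.castRingHom ℚ)) = W'.map (Int.castRingHom ℚ) → |W.Δ| ≤ |W'.Δ|

/-- The number of the affine points modulo `p`. -/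
noncomputable def affCount (W : WeierstrassCurve ℤ) (p : ℕ) : ℕ :=
  Nat.card {P : ZMod p × ZMod p //
    (W.map (Int.castRingHom (ZMod p))).toAffine.Equation P.1 P.2}

/-- `a_p = p + 1 - #E(𝔽_p)`. -/
noncomputable def ap (W : WeierstrassCurve ℤ) (p : ℕ) : ℤ := p - affCount W p

/-- `Λ` is entire and equal to `∏_p (1 - a_p p^(-s) + [p ∤ Δ] p^(1-2s))⁻¹` for `Re s > 3/2`. -/
def IsLFun (W : WeierstrassCurve ℤ) (Λ : ℂ → ℂ) : Prop :=
  Differentiable ℂ Λ ∧ ∀ s : ℂ, 3 / 2 < s.re →
    HasProd (fun p : Nat.Primes => (1 - (ap W p : ℂ) * ((p : ℕ) : ℂ) ^ (-s) +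
      (if ((p : ℕ) : ℤ) ∣ W.Δ then 0 else ((p : ℕ) : ℂ) ^ (1 - 2 * s)))⁻¹) (Λ s)

/-- `4 x³ + b₂ x² + 2 b₄ x + b₆ = (2 y + a₁ x + a₃)²`. -/
noncomputable def cubic (W : WeierstrassCurve ℤ) (x : ℝ) : ℝ :=
  4 * x ^ 3 + W.b₂ * x ^ 2 + 2 * W.b₄ * x + W.b₆

/-- `Ω = ∫_{W(ℝ)} |ω|` with `ω = dx / (2 y + a₁ x + a₃)`, as an integral over `x`: two real points lie
over each `x` with `cubic x > 0`. -/
noncomputable def Omega (W : WeierstrassCurve ℤ) : ℝ :=
  ∫ x in {x : ℝ | 0 < cubic W x}, 2 / Real.sqrt (cubic W x)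

/-- The point `(x, y)` over `ℚ_p` is integral and reduces to a singular point modulo `p`: both partial
derivatives of `y² + a₁ x y + a₃ y - x³ - a₂ x² - a₄ x - a₆` vanish modulo `p`. -/
def SingRed (W : WeierstrassCurve ℤ) (p : ℕ) [Fact p.Prime] (x y : ℚ_[p]) : Prop :=
  ‖x‖ ≤ 1 ∧ ‖y‖ ≤ 1 ∧ ‖W.a₁ * y - (3 * x ^ 2 + 2 * W.a₂ * x + W.a₄)‖ < 1 ∧
    ‖2 * y + W.a₁ * x + W.a₃‖ < 1

/-- `W⁰(ℚ_p)`, the group of the points with nonsingular reduction. -/
noncomputable def E0 (W : WeierstrassCurve ℤ) (p : ℕ) [Fact p.Prime] :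
    AddSubgroup (W.map (Int.castRingHom ℚ_[p])).toAffine.Point :=
  AddSubgroup.closure {P | ∀ (x y : ℚ_[p]) (h), P = .some x y h → ¬ SingRed W p x y}

/-- The Tamagawa number `[W(ℚ_p) : W⁰(ℚ_p)]`. -/
noncomputable def tam (W : WeierstrassCurve ℤ) (p : ℕ) : ℕ :=
  if h : p.Prime then haveI := Fact.mk h; (E0 W p).index else 1

/-- The product of the Tamagawa numbers. -/
noncomputable def tamProd (W : WeierstrassCurve ℤ) : ℕ := ∏ p ∈ W.Δ.natAbs.primeFactors, tam W p

/-- The order of the torsion subgroup of the group of the rational points. -/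
noncomputable def torsOrder (W : WeierstrassCurve ℚ) : ℕ :=
  Nat.card (AddCommGroup.torsion W.toAffine.Point)

/-- The order of the Tate-Shafarevich group predicted by the formula, for the value `l` of the
L-function of `E_D` at `s = 1`: `#E_D(ℚ)_tors² l / (Ω ∏ c_p)`. -/
noncomputable def anOrder (D : ℕ) (l : ℂ) : ℂ :=
  l * (torsOrder (E D) : ℂ) ^ 2 / ((Omega (twist D) : ℝ) * (tamProd (twist D) : ℂ))

/-- The class of the discriminants: squarefree and `≡ 1` or `49` modulo `60`. -/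
def Cls (D : ℕ) : Prop := Squarefree D ∧ (D % 60 = 1 ∨ D % 60 = 49)

/-- The criterion. -/
def Good (D : ℕ) : Prop := ∀ d : ℕ, d ∣ D →
  (∀ p : ℕ, p.Prime → p ∣ D → ¬ p ∣ d → jacobiSym d p = 1) →
  (∀ p : ℕ, p.Prime → p ∣ d → jacobiSym (-((D / d : ℕ) : ℤ)) p = 1) →
  jacobiSym d 5 = 1 → d = 1

/-- The 2-part of the conjecture, in the case that `z` is odd: `E_D(ℚ)` is finite, the 2-primary part
of `Ш(E_D/ℚ)` is zero, `L(E_D, s)` has an entire continuation `Λ` with `Λ(1) ≠ 0`, and the predicted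
order of `Ш(E_D/ℚ)` is an odd integer. -/
def TwoPart (D : ℕ) : Prop :=
  Finite (E D).toAffine.Point ∧ (∀ (n : ℕ) (x : Sha (E D)), 2 ^ n • x = 0 → x = 0) ∧
    ∃ Λ : ℂ → ℂ, IsLFun (twist D) Λ ∧ Λ 1 ≠ 0 ∧ ∃ z : ℤ, Odd z ∧ anOrder D (Λ 1) = z

/-- The product `M D` without its square part, for squarefree `M` and `D`. -/
def prd (M D : ℕ) : ℕ := M * D / Nat.gcd M D ^ 2

/-- The constant `(1 - 1/2) (1 - 1/4) (1 - 1/8) ⋯`. -/
noncomputable def c : ℝ := ∏' i : ℕ, (1 - (1 / 2 : ℝ) ^ (i + 1))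

section proof

open Pool.Agent.H3.S15 Pool.Agent.H757_X15

lemma twist_eq (D : ℕ) : twist D = WD (D : ℤ) := rfl

lemma tam_eq (W : WeierstrassCurve ℤ) (p : ℕ) [hp : Fact p.Prime] :
    tam W p = Pool.Agent.Y700.tam W p := by
  unfold tam
  rw [dif_pos hp.out]
  rfl

lemma fact_pf {D : ℕ} (hD : Cls D) :
    (twist D).Δ.natAbs.primeFactors = {3, 5} ∪ D.primeFactors := by
  have h4 : (D : ℤ) % 4 = 1 := by rcases hD.2 with h | h <;> omega
  have h0 : D ≠ 0 := hD.1.ne_zero
  rw [twist_eq, Delta_WD h4]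
  have e : ((3 ^ 4 * 5 ^ 4 : ℤ) * (D : ℤ) ^ 6).natAbs = 3 ^ 4 * (5 ^ 4 * D ^ 6) := by
    rw [Int.natAbs_mul, Int.natAbs_pow, Int.natAbs_natCast, ← mul_assoc]
    norm_num
  rw [e, Nat.primeFactors_mul (by norm_num) (mul_ne_zero (by norm_num) (pow_ne_zero 6 h0)),
    Nat.primeFactors_mul (by norm_num) (pow_ne_zero 6 h0), Nat.primeFactors_pow _ (by norm_num),
    Nat.primeFactors_pow _ (by norm_num), Nat.primeFactors_pow _ (by norm_num),
    Nat.Prime.primeFactors (by norm_num), Nat.Prime.primeFactors (by norm_num)]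
  ext p
  simp
  tauto

lemma tamProd_eq {D : ℕ} (hD : Cls D) :
    tamProd (twist D) = 2 ^ (3 + 2 * D.primeFactors.card) := by
  have hsq : Squarefree (D : ℤ) := Int.squarefree_natCast.2 hD.1
  have hF : (D : ℤ) % 60 = 1 ∨ (D : ℤ) % 60 = 49 := by rcases hD.2 with h | h <;> omega
  have h3D : 3 ∉ D.primeFactors := fun h => by
    have := Nat.dvd_of_mem_primeFactors h
    rcases hD.2 with h | h <;> omega
  have h5D : 5 ∉ D.primeFactors := fun h => by
    have := Nat.dvd_of_mem_primeFactors h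
    rcases hD.2 with h | h <;> omega
  have hd : Disjoint ({3, 5} : Finset ℕ) D.primeFactors := by
    rw [Finset.disjoint_left]
    intro p hp
    rcases Finset.mem_insert.1 hp with rfl | hp
    · exact h3D
    · rw [Finset.mem_singleton.1 hp]
      exact h5D
  unfold tamProd
  rw [fact_pf hD, Finset.prod_union hd, Finset.prod_insert (by decide), Finset.prod_singleton]
  have e3 : tam (twist D) 3 = 2 := by
    have : Fact (Nat.Prime 3) := ⟨by norm_num⟩
    rw [tam_eq]
    exact (tam_vals Pool.Agent.Y809.BSD14.t_E0 hsq hF 3).1 rfl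
  have e5 : tam (twist D) 5 = 4 := by
    have : Fact (Nat.Prime 5) := ⟨by norm_num⟩
    rw [tam_eq]
    exact (tam_vals Pool.Agent.Y809.BSD14.t_E0 hsq hF 5).2.1 rfl
  have e : ∀ p ∈ D.primeFactors, tam (twist D) p = 4 := by
    intro p hp
    have : Fact p.Prime := ⟨Nat.prime_of_mem_primeFactors hp⟩
    rw [tam_eq]
    exact (tam_vals Pool.Agent.Y809.BSD14.t_E0 hsq hF p).2.2
      (Int.natCast_dvd_natCast.2 (Nat.dvd_of_mem_primeFactors hp))
  rw [Finset.prod_congr rfl e, Finset.prod_const, e3, e5, pow_add, pow_mul]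
  norm_num

lemma two_pow {G : Type} [AddCommGroup G] (h : ∀ x : G, x + x = 0 → x = 0) (n : ℕ) :
    ∀ x : G, 2 ^ n • x = 0 → x = 0 := by
  induction n with
  | zero => intro x hx; rwa [pow_zero, one_smul] at hx
  | succ n ih =>
    intro x hx
    rw [pow_succ, mul_smul, two_smul] at hx
    exact h x (ih _ hx)

theorem core {D : ℕ} (hD : Cls D) (h1 : D ≠ 1) :
    IsGloballyMinimal (twist D) ∧
    (∃ t : ℕ, Odd t ∧ torsOrder (E D) = 4 * t) ∧
    tamProd (twist D) = 2 ^ (3 + 2 * D.primeFactors.card) ∧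
    0 < Omega (twist D) ∧
    ((Finite (E D).toAffine.Point ∧ ∀ x : Sha (E D), x + x = 0 → x = 0) ↔ Good D) ∧
    (TwoPart D ↔ Good D) ∧
    ∃ Λ : ℂ → ℂ, IsLFun (twist D) Λ ∧ ∃ z : ℤ,
      (anOrder D (Λ 1) = z ^ 2 ∨ anOrder D (Λ 1) = -z ^ 2) ∧ (Odd z ↔ Good D) := by
  have h4 : D % 4 = 1 := by rcases hD.2 with h | h <;> omega
  have hsq : Squarefree (D : ℤ) := Int.squarefree_natCast.2 hD.1
  obtain ⟨t, ht, htors⟩ := torsion_WD hD.1 h1 h4
  have htors' : torsOrder (E D) = 4 * t := htors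
  have hT := tamProd_eq hD
  have hA : (Finite (E D).toAffine.Point ∧ ∀ x : Sha (E D), x + x = 0 → x = 0) ↔ Good D :=
    algebraic hD.1 hD.2 h1
  obtain ⟨Λ, y, ε, hΛ, hε, hy, hΩ, hv⟩ := central hD.1 hD.2 h1
  have hΩ' : 0 < Omega (twist D) := hΩ
  have hv' : Λ 1 = ((ε * y ^ 2 * (Omega (twist D) *
        (2 ^ (3 + 2 * D.primeFactors.card) : ℕ) / 16) : ℝ) : ℂ) := hv
  have hL : IsLFun (twist D) Λ := hΛ
  have hyC : Odd y ↔ Good D := hy
  have hz : anOrder D (Λ 1) = ε * ((t * y : ℤ) : ℂ) ^ 2 := by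
    have hΩc : ((Omega (twist D) : ℝ) : ℂ) ≠ 0 := by exact_mod_cast hΩ'.ne'
    have h2 : ((2 : ℂ) ^ (3 + 2 * D.primeFactors.card)) ≠ 0 := pow_ne_zero _ two_ne_zero
    unfold anOrder
    rw [hv', htors', hT]
    push_cast
    field_simp
    ring
  have hodd : Odd ((t : ℤ) * y) ↔ Good D := by
    rw [Int.odd_mul, ← hyC]
    exact ⟨fun h => h.2, fun h => ⟨by exact_mod_cast ht, h⟩⟩
  refine ⟨?_, ⟨t, ht, htors'⟩, hT, hΩ', hA, ⟨?_, ?_⟩, Λ, hL, t * y, ?_, hodd⟩
  · exact (t_MOD (D : ℤ) (by omega) hsq (by rcases hD.2 with h | h <;> omega)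
      (by rcases hD.2 with h | h <;> omega)).1
  · rintro ⟨hf, hs, -⟩
    exact hA.1 ⟨hf, fun x hx => hs 1 x (by rwa [pow_one, two_smul])⟩
  · intro hG
    obtain ⟨hf, hs⟩ := hA.2 hG
    refine ⟨hf, two_pow hs, Λ, hL, ?_, ε * (t * y) ^ 2, ?_, ?_⟩
    · have hy0 : y ≠ 0 := by
        rintro rfl
        exact absurd (hyC.2 hG) (by decide)
      have hε0 : ε ≠ 0 := by rcases hε with h | h <;> rw [h] <;> norm_num
      rw [hv']
      have : (ε * y ^ 2 * (Omega (twist D) *
        (2 ^ (3 + 2 * D.primeFactors.card) : ℕ) / 16) : ℝ) ≠ 0 := by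
        refine mul_ne_zero (mul_ne_zero (by exact_mod_cast hε0) (pow_ne_zero _ (by exact_mod_cast hy0)))
          ?_
        positivity
      exact_mod_cast this
    · have h5 : Odd (((t : ℤ) * y) ^ 2) := (hodd.2 hG).pow
      rcases hε with h | h
      · rw [h, one_mul]
        exact h5
      · rw [h, neg_one_mul]
        exact h5.neg
    · rw [hz]
      push_cast
      ring
  · rw [hz]
    rcases hε with h | h
    · left
      rw [h]
      push_cast
      ring
    · right
      rw [h]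
      push_cast
      ring

lemma prd_cls {M D : ℕ} (hM : Cls M) (hD : Cls D) : Cls (prd M D) :=
  ⟨Pool.Agent.H735X.tw_sqf hM.1 hD.1, Pool.Agent.H735X.tw_fm hM.1 hM.2 hD.1 hD.2⟩

lemma prd_ne {M D : ℕ} (hM : Cls M) (hD : Cls D) (h : M ≠ D) : prd M D ≠ 1 := by
  intro h1
  have h2 := Pool.Agent.H735X.tw_pf hM.1 hD.1
  have h3 : Pool.Agent.H735X.tw M D = 1 := h1
  rw [h3, Nat.primeFactors_one] at h2
  have h4 : D.primeFactors = M.primeFactors := symmDiff_eq_bot.1 h2.symm
  apply h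
  rw [← Nat.prod_primeFactors_of_squarefree hM.1, ← Nat.prod_primeFactors_of_squarefree hD.1, h4]

/-- two sequences of sets which differ in a bounded set -/
lemma lim_of {A B C : ℕ → ℕ} {l : ℝ} {m : ℕ} (h1 : ∀ X, A X ≤ B X + m) (h2 : ∀ X, B X ≤ A X + m)
    (hB : Tendsto (fun X => (B X : ℝ) / C X) atTop (nhds l))
    (hC : Tendsto (fun X => (C X : ℝ)) atTop atTop) :
    Tendsto (fun X => (A X : ℝ) / C X) atTop (nhds l) := by
  have h3 : Tendsto (fun X => (m : ℝ) / (C X : ℝ)) atTop (nhds 0) := hC.const_div_atTop _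
  have h4 : Tendsto (fun X => ((A X : ℝ) - B X) / C X) atTop (nhds 0) := by
    refine squeeze_zero_norm (fun X => ?_) h3
    rw [norm_div, Real.norm_of_nonneg (Nat.cast_nonneg (C X))]
    refine div_le_div_of_nonneg_right ?_ (Nat.cast_nonneg _)
    rw [Real.norm_eq_abs, abs_le]
    have a := h1 X
    have b := h2 X
    have a' : (A X : ℝ) ≤ B X + m := by exact_mod_cast a
    have b' : (B X : ℝ) ≤ A X + m := by exact_mod_cast b
    constructor <;> linarith
  have h5 := hB.add h4
  rw [add_zero] at h5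
  refine h5.congr fun X => ?_
  rw [← add_div]
  congr 1
  ring

lemma card_le {S T : Finset ℕ} {p q : ℕ → Prop} [DecidablePred p] [DecidablePred q]
    (h : ∀ D ∈ S, D ∉ T → (p D → q D)) :
    (S.filter p).card ≤ (S.filter q).card + T.card := by
  refine (Finset.card_le_card (t := S.filter q ∪ T) ?_).trans (Finset.card_union_le _ _)
  intro D hD
  obtain ⟨h1, h2⟩ := Finset.mem_filter.1 hD
  by_cases h3 : D ∈ T
  · exact Finset.mem_union_right _ h3
  · exact Finset.mem_union_left _ (Finset.mem_filter.2 ⟨h1, h D h1 h3 h2⟩)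

end proof

/-- **The 2-part of the strong Birch and Swinnerton-Dyer conjecture for the twists of `X_0(15)`.** -/
theorem result :
    (∀ D : ℕ, Cls D → D ≠ 1 →
      IsGloballyMinimal (twist D) ∧
      (∃ t : ℕ, Odd t ∧ torsOrder (E D) = 4 * t) ∧
      tamProd (twist D) = 2 ^ (3 + 2 * D.primeFactors.card) ∧
      0 < Omega (twist D) ∧
      ((Finite (E D).toAffine.Point ∧ ∀ x : Sha (E D), x + x = 0 → x = 0) ↔ Good D) ∧
      (TwoPart D ↔ Good D) ∧
      ∃ Λ : ℂ → ℂ, IsLFun (twist D) Λ ∧ ∃ z : ℤ,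
        (anOrder D (Λ 1) = z ^ 2 ∨ anOrder D (Λ 1) = -z ^ 2) ∧ (Odd z ↔ Good D)) ∧
    Tendsto (fun X : ℕ => (((Icc 1 X).filter fun D => Cls D ∧ TwoPart D).card : ℝ) /
        (((Icc 1 X).filter fun D => Cls D).card : ℝ)) atTop (nhds c) ∧
    (∀ T V : Finset ℕ, (∀ M ∈ T, Cls M) → V ⊆ T →
      Tendsto (fun X : ℕ => (((Icc 1 X).filter fun D => Cls D ∧
          ∀ M ∈ T, (TwoPart (prd M D) ↔ M ∈ V)).card : ℝ) /
        (((Icc 1 X).filter fun D => Cls D).card : ℝ))
        atTop (nhds (c ^ V.card * (1 - c) ^ (T \ V).card))) ∧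
    Tendsto (fun X : ℕ => (((Icc 1 X).filter fun D => Cls D).card : ℝ) / X) atTop
      (nhds (5 / (16 * Real.pi ^ 2))) ∧
    0.2887 < c ∧ c < 0.2888 := by
  have hden : Tendsto (fun X : ℕ => (((Icc 1 X).filter fun D => Cls D).card : ℝ) / X) atTop
      (nhds (5 / (16 * Real.pi ^ 2))) := by
    refine Pool.Agent.H757_X15.DD.t_DEN2.congr fun X => ?_
    congr 2
    exact congrArg card (filter_congr fun D _ => Iff.rfl)
  have hinf : Tendsto (fun X : ℕ => (((Icc 1 X).filter fun D => Cls D).card : ℝ)) atTop atTop := by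
    have h1 : (0 : ℝ) < 5 / (16 * Real.pi ^ 2) := by positivity
    refine (hden.pos_mul_atTop h1 tendsto_natCast_atTop_atTop).congr' ?_
    filter_upwards [eventually_gt_atTop 0] with X hX
    rw [div_mul_cancel₀]
    exact_mod_cast hX.ne'
  have hlaw : ∀ T V : Finset ℕ, (∀ M ∈ T, Cls M) → V ⊆ T →
      Tendsto (fun X : ℕ => (((Icc 1 X).filter fun D => Cls D ∧
          ∀ M ∈ T, (TwoPart (prd M D) ↔ M ∈ V)).card : ℝ) /
        (((Icc 1 X).filter fun D => Cls D).card : ℝ))
        atTop (nhds (c ^ V.card * (1 - c) ^ (T \ V).card)) := by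
    intro T V hT hV
    have h1 := Pool.Agent.H735X.lawD Pool.Agent.H735X.t_JDQ T V hT hV
    have key : ∀ D, D ∉ T → Cls D → ∀ M ∈ T, (TwoPart (prd M D) ↔ Good (prd M D)) := by
      intro D hDT hD M hM
      exact (core (prd_cls (hT M hM) hD) (prd_ne (hT M hM) hD fun h => hDT (h ▸ hM))).2.2.2.2.2.1
    refine lim_of (m := T.card)
      (B := fun X => ((Icc 1 X).filter fun D => (Squarefree D ∧ Pool.Agent.H757_X15.DD.Fm D) ∧
      ∀ M ∈ T, (Pool.Agent.H757_X15.DD.Crit (Pool.Agent.H735X.tw M D) ↔ M ∈ V)).card)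
      (fun X => ?_) (fun X => ?_) (h1.congr fun X => ?_) hinf
    · refine card_le (T := T) fun D _ hDT h => ?_
      exact ⟨h.1, fun M hM => (key D hDT h.1 M hM).symm.trans (h.2 M hM)⟩
    · refine card_le (T := T) fun D _ hDT h => ?_
      exact ⟨h.1, fun M hM => (key D hDT h.1 M hM).trans (h.2 M hM)⟩
    · congr 2
      exact congrArg card (filter_congr fun D _ => Iff.rfl)
  refine ⟨fun D hD h1 => core hD h1, ?_, hlaw, hden, ?_, ?_⟩
  · have h1 := hlaw {1} {1} (by
      intro M hM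
      rw [Finset.mem_singleton.1 hM]
      exact ⟨squarefree_one, Or.inl rfl⟩) (Finset.Subset.refl _)
    rw [Finset.card_singleton, pow_one, Finset.sdiff_self, Finset.card_empty, pow_zero, mul_one] at h1
    refine h1.congr fun X => ?_
    congr 2
    refine congrArg card (filter_congr fun D _ => and_congr_right fun _ => ?_)
    have e : prd 1 D = D := by
      unfold prd
      rw [one_mul, Nat.gcd_one_left, one_pow, Nat.div_one]
    simp only [Finset.mem_singleton, forall_eq, iff_true, e]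
  · exact Pool.Agent.H757_X15.DD.t_LA1.2.2.2.1
  · exact Pool.Agent.H757_X15.DD.t_LA1.2.2.2.2

end Pool.Agent.Results.MP_4a9ea6_nt.TwoPartTwistsX015
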