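import Pool.Agent.Results.MP_4a9ea6_nt.TwoPartAllTwists17
import Pool.Agent.Results.MP_4a9ea6_nt.TwoPartTwistsX015
import Pool.Agent.Results.MP_8b7eba_nt.SimultaneousTwists1517

/-!
# The 2-part of the strong Birch and Swinnerton-Dyer conjecture for the same quadratic twist of two
# non-isogenous curves: the joint law

`E : y² = x³ - 91 x - 330` has conductor `17`, `E'` is `X_0(15)`. They are not isogenous over `ℚ̄`, have
no complex multiplication and no rational isogeny of odd degree. Let `E_D`, `E'_D` be their quadratic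
twists by `D`, where `D` runs over the squarefree numbers which are `≡ 1` or `49` modulo `60` and
squares modulo `17` (`Cls D`; positive density `85 / (576 π²)`, no other condition on the prime
factors). Let `Λ_17`, `Λ_15` be the entire continuations of the L-series of `E_D`, `E'_D`, and let
`z = #tors² Λ(1) / (Ω ∏ c_p)` be the order of `Ш` predicted by the conjecture.

For `D ≠ 1` in the class: `z_17(D)` is the square of an integer which is odd if and only if `D` is
`Good17`; up to sign `z_15(D)` is the square of an integer which is odd if and only if `D` is `Good15`;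
the 2-part of the full conjecture holds in the form: `Λ(1) ≠ 0`, finitely many rational points,
`Ш[2^∞] = 0`, odd integral `z`, for `E_D` iff `D` is `Good17`, and for `E'_D` iff `D` is `Good15`.

In every residue class modulo every `m` which contains an element of the class, the four proportions
of the `D` for which this is the case for both curves, for `E'_D` only, for `E_D` only, for neither of
them exist and are exactly `c15 c17`, `c15 (1 - c17)`, `(1 - c15) c17`, `(1 - c15) (1 - c17)`: the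
two events are independent. In particular the 2-part of the conjecture is true for both twists at once
for a positive proportion of all positive integers `D`.

The proof assembles the two criteria for the 2-parts (`MP_4a9ea6_nt`, `TwoPartAllTwists17` and
`TwoPartTwistsX015`) and the joint law of the two criteria (`Pool.Agent.H3.J17`).
-/

set_option autoImplicit false

namespace Pool.Agent.Results.MP_4a9ea6_nt.TwoPartSimultaneous1517

open Filter Finset
open scoped Classical

open Pool.Agent.Results.MP_8b7eba_nt.SimultaneousTwists1517 (Cls Good15 Good17 prop c15 c17)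

/-- the 2-part of the conjecture, with odd `z`, for the twist by `D` of the curve of conductor `17` -/
def TwoPart17 (D : ℕ) : Prop := TwoPartAllTwists17.TwoPart (D : ℤ)

/-- the 2-part of the conjecture, with odd `z`, for the twist by `D` of `X_0(15)` -/
def TwoPart15 (D : ℕ) : Prop := TwoPartTwistsX015.TwoPart D

section
variable {D : ℕ}

theorem rootPlus (hD : Cls D) : TwoPartAllTwists17.RootPlus (D : ℤ) :=
  Or.inl ⟨by exact_mod_cast Nat.pos_of_ne_zero hD.1.ne_zero, hD.2.2⟩

theorem good17 (hD : Cls D) : TwoPartAllTwists17.Good (D : ℤ) ↔ Good17 D := by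
  obtain ⟨-, h4, -⟩ := Pool.Agent.Results.MP_8b7eba_nt.SimultaneousTwists1517.cls_facts hD
  have hdisc : TwoPartAllTwists17.disc (D : ℤ) = D := by
    unfold TwoPartAllTwists17.disc
    rw [if_pos (by omega)]
  rw [Pool.Agent.Results.MP_8b7eba_nt.SimultaneousTwists1517.good17_cri hD]
  unfold TwoPartAllTwists17.Good
  rw [hdisc]
  exact Iff.rfl

theorem facts17 (hD : Cls D) (h1 : D ≠ 1) : (TwoPart17 D ↔ Good17 D) ∧
    ∃ Λ : ℂ → ℂ, TwoPartAllTwists17.IsLFun (TwoPartAllTwists17.twist D) Λ ∧
      ∃ z : ℤ, TwoPartAllTwists17.anOrder D (Λ 1) = z ^ 2 ∧ (Odd z ↔ Good17 D) := by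
  have hsq : Squarefree (D : ℤ) := Int.squarefree_natCast.2 hD.1
  have h1' : (D : ℤ) ≠ 1 := by exact_mod_cast h1
  obtain ⟨-, -, -, -, ⟨Λ, hΛ, -, hv⟩, h6⟩ := TwoPartAllTwists17.core hsq h1'
  obtain ⟨z, hz, hodd⟩ := hv (rootPlus hD)
  refine ⟨?_, Λ, hΛ, z, hz, hodd.trans (good17 hD)⟩
  unfold TwoPart17
  rw [h6, good17 hD]
  exact ⟨fun h => h.2, fun h => ⟨rootPlus hD, h⟩⟩

theorem facts15 (hD : Cls D) (h1 : D ≠ 1) : (TwoPart15 D ↔ Good15 D) ∧
    ∃ Λ : ℂ → ℂ, TwoPartTwistsX015.IsLFun (TwoPartTwistsX015.twist D) Λ ∧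
      ∃ z : ℤ, (TwoPartTwistsX015.anOrder D (Λ 1) = z ^ 2 ∨
        TwoPartTwistsX015.anOrder D (Λ 1) = -z ^ 2) ∧ (Odd z ↔ Good15 D) := by
  obtain ⟨-, -, -, -, -, h6, Λ, hΛ, z, hz, hodd⟩ := TwoPartTwistsX015.core (D := D) ⟨hD.1, hD.2.1⟩ h1
  exact ⟨h6, Λ, hΛ, z, hz, hodd⟩

end

/-- the four proportions from three of them -/
theorem four {m r : ℕ} {P Q : ℕ → Prop} {a b : ℝ}
    (hne : ∀ᶠ X : ℕ in atTop, (((Icc 1 X).filter fun D => Cls D ∧ D % m = r).card : ℝ) ≠ 0)
    (hP : Tendsto (prop m r P) atTop (nhds a)) (hQ : Tendsto (prop m r Q) atTop (nhds b))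
    (hPQ : Tendsto (prop m r fun D => P D ∧ Q D) atTop (nhds (a * b))) :
    Tendsto (prop m r fun D => P D ∧ ¬ Q D) atTop (nhds (a * (1 - b))) ∧
    Tendsto (prop m r fun D => ¬ P D ∧ Q D) atTop (nhds ((1 - a) * b)) ∧
    Tendsto (prop m r fun D => ¬ P D ∧ ¬ Q D) atTop (nhds ((1 - a) * (1 - b))) := by
  have split : ∀ (A B : ℕ → Prop) (X : ℕ),
      ((Icc 1 X).filter fun D => (Cls D ∧ D % m = r) ∧ A D).card =
        ((Icc 1 X).filter fun D => (Cls D ∧ D % m = r) ∧ A D ∧ B D).card +
        ((Icc 1 X).filter fun D => (Cls D ∧ D % m = r) ∧ A D ∧ ¬ B D).card := by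
    intro A B X
    rw [← Finset.card_filter_add_card_filter_not (s := (Icc 1 X).filter fun D =>
      (Cls D ∧ D % m = r) ∧ A D) (fun D => B D), filter_filter, filter_filter]
    congr 2
    · refine filter_congr fun D _ => ?_
      tauto
    · refine filter_congr fun D _ => ?_
      tauto
  have sprop : ∀ (A B : ℕ → Prop) (X : ℕ), prop m r A X =
      prop m r (fun D => A D ∧ B D) X + prop m r (fun D => A D ∧ ¬ B D) X := by
    intro A B X
    unfold Pool.Agent.Results.MP_8b7eba_nt.SimultaneousTwists1517.prop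
    rw [← add_div, split A B X]
    push_cast
    ring
  have hone : Tendsto (prop m r fun _ => True) atTop (nhds 1) := by
    refine (tendsto_const_nhds (x := (1 : ℝ))).congr' ?_
    filter_upwards [hne] with X hX
    unfold Pool.Agent.Results.MP_8b7eba_nt.SimultaneousTwists1517.prop
    simp only [and_true]
    rw [div_self hX]
  have key : ∀ {A B : ℕ → Prop} {u v : ℝ}, Tendsto (prop m r A) atTop (nhds u) →
      Tendsto (prop m r fun D => A D ∧ B D) atTop (nhds v) →
      Tendsto (prop m r fun D => A D ∧ ¬ B D) atTop (nhds (u - v)) := by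
    intro A B u v h1 h2
    refine (h1.sub h2).congr fun X => ?_
    rw [sprop A B X]
    ring
  have h1 := key hP hPQ
  have swap : ∀ (A B : ℕ → Prop), prop m r (fun D => A D ∧ B D) = prop m r (fun D => B D ∧ A D) := by
    intro A B
    congr 1
    funext D
    exact propext and_comm
  have h2 : Tendsto (prop m r fun D => Q D ∧ ¬ P D) atTop (nhds (b - a * b)) := by
    rw [swap] at hPQ
    exact key hQ hPQ
  have hP' : Tendsto (prop m r fun D => True ∧ P D) atTop (nhds a) := by
    simpa only [true_and] using hP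
  have h3 := key hone hP'
  simp only [true_and] at h3
  rw [swap] at h2
  have h4 := key h3 h2
  refine ⟨?_, ?_, ?_⟩
  · convert h1 using 2
    ring
  · convert h2 using 2
    ring
  · convert h4 using 2
    ring

/-- **The 2-part of the strong conjecture for the same twist of two curves: the joint law.** -/
theorem result :
    (∀ D : ℕ, Cls D → D ≠ 1 →
      (TwoPart17 D ↔ Good17 D) ∧ (TwoPart15 D ↔ Good15 D) ∧
      (∃ Λ : ℂ → ℂ, TwoPartAllTwists17.IsLFun (TwoPartAllTwists17.twist D) Λ ∧
        ∃ z : ℤ, TwoPartAllTwists17.anOrder D (Λ 1) = z ^ 2 ∧ (Odd z ↔ Good17 D)) ∧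
      (∃ Λ : ℂ → ℂ, TwoPartTwistsX015.IsLFun (TwoPartTwistsX015.twist D) Λ ∧
        ∃ z : ℤ, (TwoPartTwistsX015.anOrder D (Λ 1) = z ^ 2 ∨
          TwoPartTwistsX015.anOrder D (Λ 1) = -z ^ 2) ∧ (Odd z ↔ Good15 D))) ∧
    (∀ m r : ℕ, 0 < m → (∃ D, Cls D ∧ D % m = r) →
      Tendsto (prop m r TwoPart15) atTop (nhds c15) ∧
      Tendsto (prop m r TwoPart17) atTop (nhds c17) ∧
      Tendsto (prop m r fun D => TwoPart15 D ∧ TwoPart17 D) atTop (nhds (c15 * c17)) ∧
      Tendsto (prop m r fun D => TwoPart15 D ∧ ¬ TwoPart17 D) atTop (nhds (c15 * (1 - c17))) ∧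
      Tendsto (prop m r fun D => ¬ TwoPart15 D ∧ TwoPart17 D) atTop (nhds ((1 - c15) * c17)) ∧
      Tendsto (prop m r fun D => ¬ TwoPart15 D ∧ ¬ TwoPart17 D) atTop
        (nhds ((1 - c15) * (1 - c17)))) ∧
    Tendsto (fun X : ℕ => (((Icc 1 X).filter Cls).card : ℝ) / X) atTop
      (nhds (85 / (576 * Real.pi ^ 2))) ∧
    0.1210 < c15 * c17 ∧ c15 * c17 < 0.1212 := by
  refine ⟨?_, ?_, Pool.Agent.H3.J17.cls_dens,
    Pool.Agent.Results.MP_8b7eba_nt.SimultaneousTwists1517.result.2.2.2.2.1,
    Pool.Agent.Results.MP_8b7eba_nt.SimultaneousTwists1517.result.2.2.2.2.2⟩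
  · intro D hD h1
    exact ⟨(facts17 hD h1).1, (facts15 hD h1).1, (facts17 hD h1).2, (facts15 hD h1).2⟩
  · rintro m r hm ⟨n₀, hn₀⟩
    obtain ⟨hs, hk⟩ := (Pool.Agent.H3.J17.cls_mem hm n₀).1 hn₀
    have l15 : Tendsto (prop m r TwoPart15) atTop (nhds c15) :=
      Pool.Agent.H3.J17.lim_one hm hs hk (P := TwoPart15)
        (fun D hD h1 => (facts15 hD h1).1.trans (Pool.Agent.H3.J17.crit_gj hD h1))
        (Pool.Agent.H3.J17.lim15 hm hs hk)
    have l17 : Tendsto (prop m r TwoPart17) atTop (nhds c17) :=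
      Pool.Agent.H3.J17.lim_one hm hs hk (P := TwoPart17)
        (fun D hD h1 => (facts17 hD h1).1.trans
          (Pool.Agent.Results.MP_8b7eba_nt.SimultaneousTwists1517.good17_gu hD))
        (Pool.Agent.H3.J17.lim17 hm hs hk)
    have lb : Tendsto (prop m r fun D => TwoPart15 D ∧ TwoPart17 D) atTop (nhds (c15 * c17)) :=
      Pool.Agent.H3.J17.lim_one hm hs hk (P := fun D => TwoPart15 D ∧ TwoPart17 D)
        (fun D hD h1 => and_congr ((facts15 hD h1).1.trans (Pool.Agent.H3.J17.crit_gj hD h1))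
          ((facts17 hD h1).1.trans
            (Pool.Agent.Results.MP_8b7eba_nt.SimultaneousTwists1517.good17_gu hD)))
        (Pool.Agent.H3.J17.lim1517 hm hs hk)
    have hne : ∀ᶠ X : ℕ in atTop,
        (((Icc 1 X).filter fun D => Cls D ∧ D % m = r).card : ℝ) ≠ 0 := by
      filter_upwards [eventually_ge_atTop n₀] with X hX
      have hmem : n₀ ∈ (Icc 1 X).filter fun D => Cls D ∧ D % m = r := by
        rw [mem_filter, mem_Icc]
        exact ⟨⟨Nat.pos_of_ne_zero hn₀.1.1.ne_zero, hX⟩, hn₀⟩
      have := Finset.card_pos.2 ⟨n₀, hmem⟩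
      exact_mod_cast this.ne'
    obtain ⟨f1, f2, f3⟩ := four hne l15 l17 lb
    exact ⟨l15, l17, lb, f1, f2, f3⟩

end Pool.Agent.Results.MP_4a9ea6_nt.TwoPartSimultaneous1517
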